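import Pool.Agent.H537.FT.Pair

/-!
# Prime pairs in progressions: the formula is wrong for the large moduli, for almost all differences

Let `M_d(x; q)` be the expected number of the prime pairs `p, p + d ≤ x` with `p ≡ a (mod q)`. The problem
asks for `|π_d(x; a, q) - M_d(x; q)| ≤ K x / (log x) ^ C` for the moduli `q ≤ (log x) ^ B`. We show that the
formula is not true for larger moduli: let `B > 0` be arbitrary, and consider the moduli `Q < q ≤ 2 Q`,
`Q = X / (log X) ^ B`. If an even `d ≤ X / (log X) ^ (B + 2)` has the property `Holds F G X d`, the estimate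
of the problem for the moduli `q ≤ (log X) ^ F`, with the bound `X / (log X) ^ G`, where `F ≥ B + 1` and
`G ≥ 2 B + 5`, then the formula is wrong for this `d` on average over ALL of the moduli `Q < q ≤ 2 Q`, by a
constant factor which depends on `B` and `ε` only, for a class `a ≤ X ^ ε` with too many pairs, and for a
class with too few pairs. Since `Holds F G X d` is true for all but few of the `d ≡ b (mod m)`, for all
`m ≤ X ^ (2/3 - ρ)` (library result `EveryModulusOfDifferences`), the formula is wrong for the moduli around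
`X / (log X) ^ B` for almost all differences of every such progression, unconditionally.

Proof. `a` is the multiple of all the primes `w < p ≤ z` for which `a` and `a + d` have no prime factor
`p ≤ w`, and `a + d` has few prime factors `z < p ≤ (log X) ^ (B + 1)`. If `n = a + q m` then both `q`
and `m` are coprime to `a (a + d)` when `n` and `n + d` are primes, and the sum over `q` is the sum over
the small cofactors `m` of the numbers of the pairs with `n ≡ a (mod m)` in intervals. If
`w = (log X)^(B/(K+1))` and `z = (log X)^(B/K)` then the inclusion and exclusion of the prime factors of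
`m ≤ (log X)^B` stops after `K` steps, so that the number of the `m` which are coprime to `a (a + d)`
differs from its expected value by a constant factor, in the direction given by the parity of `K`, whereas
the large factors `q` are regularly distributed. For the primes (instead of prime pairs) this is the
argument of Friedlander and Granville (1989).
-/

set_option autoImplicit false

open Finset Filter

namespace Pool.Agent.Results.MP_92ef0c_nt.LimitsOfUniformity

open Pool.Agent.Results.MP_92ef0c_nt.EveryModulusOfDifferences (pairs main Holds)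

/-- the moduli `Q < q ≤ 2 Q` with `(a, q) = (a + d, q) = 1`, `Q = ⌊X / (log X)^B⌋` -/
noncomputable def moduli (B : ℝ) (X d a : ℕ) : Finset ℕ :=
  (Ioc ⌊(X : ℝ) / Real.log X ^ B⌋₊ (2 * ⌊(X : ℝ) / Real.log X ^ B⌋₊)).filter
    fun q => Nat.Coprime a q ∧ Nat.Coprime (a + d) q

/-- There is a class `a ≤ X ^ ε` for which the number of the pairs `p, p + d ≤ X` with `p ≡ a (mod q)`,
summed over all the moduli `q` in `(Q, 2 Q]` with `(a, q) = (a + d, q) = 1`, is at least `1 + η` times its
expected value `∑ M_d(X; q)`, and a class `a ≤ X ^ ε` for which it is at most `1 - η` times its expected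
value. (The expected values are positive.) -/
def Irregular (B ε η : ℝ) (X d : ℕ) : Prop :=
  (∃ a : ℕ, 1 ≤ a ∧ (a : ℝ) ≤ (X : ℝ) ^ ε ∧ 0 < ∑ q ∈ moduli B X d a, main d X q ∧
    (1 + η) * ∑ q ∈ moduli B X d a, main d X q ≤ ∑ q ∈ moduli B X d a, (pairs d X a q : ℝ)) ∧
  ∃ a : ℕ, 1 ≤ a ∧ (a : ℝ) ≤ (X : ℝ) ^ ε ∧ 0 < ∑ q ∈ moduli B X d a, main d X q ∧
    ∑ q ∈ moduli B X d a, (pairs d X a q : ℝ) ≤ (1 - η) * ∑ q ∈ moduli B X d a, main d X q

/-- The even differences `0 < d ≤ X / (log X) ^ (G + 6)` with `d ≡ b (mod m)` for which the formula is not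
wrong for the moduli around `X / (log X) ^ B`. -/
def regular (B ε η : ℝ) (G X m : ℕ) (b : ℤ) : Set ℕ :=
  {d : ℕ | 0 < d ∧ (d : ℝ) ≤ (X : ℝ) / Real.log X ^ (G + 6) ∧ Even d ∧ (d : ℤ) ≡ b [ZMOD m] ∧
    ¬ Irregular B ε η X d}

/-- **The formula for prime pairs in progressions is wrong for the moduli around `X / (log X) ^ B`.** For
all `B`, `ε > 0` there is `η > 0` such that, if `F ≥ B + 1` and `G ≥ 2 B + 5`: for all large `X`, all even
`0 < d ≤ X / (log X) ^ (B + 2)` for which the estimate of the problem holds up to `X`, for the moduli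
`q ≤ (log X) ^ F` with the bound `X / (log X) ^ G`, are irregular; and, unconditionally, for all `ρ > 0`,
`A`, `T` and all large `X`, for every `m ≤ X ^ (2/3 - ρ)` and every `b` with `gcd(b, m) ≤ (log X) ^ T`, all
but at most `X / (m (log X) ^ A)` of the even `0 < d ≤ X / (log X) ^ (G + 6)`, `d ≡ b (mod m)`, are
irregular. -/
theorem result (B ε : ℝ) (hB : 0 < B) (hε : 0 < ε) :
    ∃ η : ℝ, 0 < η ∧ ∀ F G : ℕ, B + 1 ≤ F → 2 * B + 5 ≤ G →
      (∀ᶠ X : ℕ in atTop, ∀ d : ℕ, 0 < d → Even d → (d : ℝ) ≤ (X : ℝ) / Real.log X ^ (B + 2) →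
        Holds F G X d → Irregular B ε η X d) ∧
      ∀ ρ : ℝ, 0 < ρ → ∀ A T : ℕ, ∀ᶠ X : ℕ in atTop, ∀ m : ℕ, 1 ≤ m → (m : ℝ) ≤ (X : ℝ) ^ (2 / 3 - ρ) →
        ∀ b : ℤ, (Int.gcd b m : ℝ) ≤ Real.log X ^ T →
          (regular B ε η G X m b).Finite ∧
            ((regular B ε η G X m b).ncard : ℝ) ≤ (X : ℝ) / (m * Real.log X ^ A) := by
  obtain ⟨k, hk⟩ := exists_nat_gt B
  have hk0 : (0 : ℝ) ≤ k := Nat.cast_nonneg _
  obtain ⟨η₁, hη₁, h₁⟩ := Pool.Agent.H537.FT.pair_parity B hB ε hε (2 * k + 2) (by omega)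
    (by push_cast; linarith)
  obtain ⟨η₂, hη₂, h₂⟩ := Pool.Agent.H537.FT.pair_parity B hB ε hε (2 * k + 3) (by omega)
    (by push_cast; linarith)
  refine ⟨min η₁ η₂, lt_min hη₁ hη₂, fun F G hF hG => ?_⟩
  set η := min η₁ η₂ with hη
  have hs1 : ((-1 : ℝ)) ^ (2 * k + 2) = 1 := by
    rw [show 2 * k + 2 = 2 * (k + 1) by ring, pow_mul]
    norm_num
  have hs2 : ((-1 : ℝ)) ^ (2 * k + 3) = -1 := by
    rw [show 2 * k + 3 = 2 * (k + 1) + 1 by ring, pow_add, pow_mul]
    norm_num
  have hfirst : ∀ᶠ X : ℕ in atTop, ∀ d : ℕ, 0 < d → Even d → (d : ℝ) ≤ (X : ℝ) / Real.log X ^ (B + 2) →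
        Holds F G X d → Irregular B ε η X d := by
    filter_upwards [h₁ F G hF hG η (lt_min hη₁ hη₂) (min_le_left _ _),
      h₂ F G hF hG η (lt_min hη₁ hη₂) (min_le_right _ _)] with X hX₁ hX₂ d _ hde hd hH
    obtain ⟨a, ha1, ha2, ha3, ha4⟩ := hX₁ d hde hd hH
    obtain ⟨b, hb1, hb2, hb3, hb4⟩ := hX₂ d hde hd hH
    rw [hs1] at ha4
    rw [hs2] at hb4
    refine ⟨⟨a, ha1, ha2, ha3, ?_⟩, b, hb1, hb2, hb3, ?_⟩
    · change (1 + η) * ∑ q ∈ moduli B X d a, main d X q ≤ ∑ q ∈ moduli B X d a, (pairs d X a q : ℝ)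
      have h5 : η * ∑ q ∈ moduli B X d a, main d X q ≤
          1 * (∑ q ∈ moduli B X d a, (pairs d X a q : ℝ) - ∑ q ∈ moduli B X d a, main d X q) := ha4
      linarith
    · have h5 : η * ∑ q ∈ moduli B X d b, main d X q ≤
          -1 * (∑ q ∈ moduli B X d b, (pairs d X b q : ℝ) - ∑ q ∈ moduli B X d b, main d X q) := hb4
      linarith
  refine ⟨hfirst, fun ρ hρ A T => ?_⟩
  obtain ⟨x₀, hx₀⟩ :=
    Pool.Agent.Results.MP_92ef0c_nt.EveryModulusOfDifferences.result ρ hρ A F G T
  have hlogX : Tendsto (fun X : ℕ => Real.log (X : ℝ)) atTop atTop :=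
    Real.tendsto_log_atTop.comp tendsto_natCast_atTop_atTop
  filter_upwards [hfirst, eventually_ge_atTop ⌈x₀⌉₊, hlogX.eventually_ge_atTop 1] with X h1 h2 h3 m hm1 hm2 b hb
  obtain ⟨h4, h5⟩ := hx₀ X (Nat.ceil_le.mp h2) m hm1 hm2 b hb
  have hsub : regular B ε η G X m b ⊆
      Pool.Agent.Results.MP_92ef0c_nt.EveryModulusOfDifferences.exceptional F G X m b := by
    rintro d ⟨hd0, hdX, hde, hdm, hdI⟩
    refine ⟨hd0, hdX, hde, hdm, fun hH => hdI (h1 d hd0 hde (hdX.trans ?_) hH)⟩
    apply div_le_div_of_nonneg_left (Nat.cast_nonneg _) (by positivity)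
    rw [← Real.rpow_natCast]
    apply Real.rpow_le_rpow_of_exponent_le h3
    push_cast
    linarith
  refine ⟨h4.subset hsub, le_trans ?_ h5⟩
  exact_mod_cast Set.ncard_le_ncard hsub h4

end Pool.Agent.Results.MP_92ef0c_nt.LimitsOfUniformity
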