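import Mathlib
import Pool.Agent.H528.ApE

set_option autoImplicit false

/-!
# Bombieri's parity law for almost all translates of an arbitrary set, and for prime pairs in progressions

Bombieri's asymptotic sieve shows, under the Elliott–Halberstam conjecture, that the products `p + d = p₁ ⋯ p_r` of
exactly `r` primes, with `p` prime, are for every `r` distributed as the number `π` of the prime pairs `p, p + d` dictates:
as many as conjectured times `π / E` if `r` is odd, and times `2 - π / E` if `r` is even, where `E` is the conjectured value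
of `π`. We show this unconditionally for almost all shifts, with a power saving in the exceptional set.

The weight of a product of `r` distinct primes `p₁, …, p_r ≥ N ^ ξ` is the sum of
`∏ (log p_i / log N) ^ (k_i + 1)` over the orderings of the `p_i`; the combinations of these weights are dense in the
admissible weights `∏ (log p_i / log N) · F(log p₁ / log N, …, log p_r / log N)`, `F` continuous.

* For ARBITRARY sets `A ⊆ [1, N]`: for all but `N ^ δ` of the translates `A + t`, `t ≤ N`, `δ < 1`.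
* For the primes `p ≤ N`, `p ≡ a (mod q)`: for all but `N ^ δ` of the even `d ≤ N`, simultaneously for all `q ≤ (log N) ^ B`
  and all `a` with `(a, q) = (a + d, q) = 1`.
-/

namespace Pool.Agent.Results.MP_92ef0c_nt.ParityLawInProgressions

open Finset Filter
open Pool.Agent.H387R2.Uni

/-- the sum of `a(p₁) ^ (k₁ + 1) ⋯ a(p_r) ^ (k_r + 1)` over the orderings `p₁, …, p_r` of the set `P` (and `0` if the
number of the elements of `P` is not the length `r` of the list `k₁, …, k_r`) -/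
noncomputable def moment (a : ℕ → ℝ) : List ℕ → Finset ℕ → ℝ
  | [], P => if P = ∅ then 1 else 0
  | k :: l, P => ∑ p ∈ P, a p ^ (k + 1) * moment a l (P.erase p)

open Classical in
/-- the weight of `m`: `0` unless `m` is the product of `r` distinct primes, all at least `N ^ ξ` (`r` is the length of
the list `l = k₁, …, k_r`), and else the sum of the `∏ (log p_i / log N) ^ (k_i + 1)` over the orderings of them -/
noncomputable def weight (N : ℕ) (ξ : ℝ) (l : List ℕ) (m : ℕ) : ℝ :=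
  if Squarefree m ∧ ∀ q : ℕ, q.Prime → q ∣ m → (N : ℝ) ^ ξ ≤ q then
    moment (fun p => Real.log p / Real.log N) l m.primeFactors else 0

/-- the constant `k₁! ⋯ k_r! / (r - 1 + k₁ + ⋯ + k_r)!`: the integers `m ≤ N` have total weight about this constant times
`N / log N` -/
noncomputable def coeff (l : List ℕ) : ℝ := ((l.map Nat.factorial).prod : ℝ) / ((l.length - 1 + l.sum).factorial : ℝ)

/-- the total weight of the translate `A + t` -/
noncomputable def mass (N : ℕ) (ξ : ℝ) (l : List ℕ) (A : Finset ℕ) (t : ℕ) : ℝ := ∑ n ∈ A, weight N ξ l (n + t)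

/-- the number of the primes in the translate `A + t` -/
noncomputable def primesIn (A : Finset ℕ) (t : ℕ) : ℝ := ((A.filter (fun n => (n + t).Prime)).card : ℝ)

/-- `∏_{p ≤ y} (1 - 1 / p)` -/
noncomputable def eulerProd (y : ℕ) : ℝ := ∏ p ∈ (Icc 1 y).filter Nat.Prime, (1 - 1 / (p : ℝ))

open Classical in
/-- the expected number of the primes in the translate `A + t`: the number of the elements without prime factors `≤ y`,
divided by `log N ∏_{p ≤ y} (1 - 1 / p)`, where `y` is `exp (κ log N / log log N)` -/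
noncomputable def expected (κ : ℝ) (N : ℕ) (A : Finset ℕ) (t : ℕ) : ℝ :=
  ((A.filter (fun n => ∀ q : ℕ, q.Prime → q ≤ ⌊Real.exp (κ * Real.log N / Real.log (Real.log N))⌋₊ → ¬ q ∣ n + t)).card : ℝ) /
    (Real.log N * eulerProd ⌊Real.exp (κ * Real.log N / Real.log (Real.log N))⌋₊)

/-- the primes `p ≤ N` with `p ≡ a (mod q)` -/
def primesAP (N a q : ℕ) : Finset ℕ := (Icc 1 N).filter (fun p => p.Prime ∧ p ≡ a [MOD q])

/-- `|φ_d(q)|`: the number of the classes `α (mod q)` with `(α, q) = (α + d, q) = 1` -/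
noncomputable def phi (d q : ℕ) : ℝ := q * ∏ p ∈ q.primeFactors, (1 - (if p ∣ d then 1 else 2) / (p : ℝ))

/-- the conjectured number of the primes `p ≤ N`, `p ≡ a (mod q)`, with `p + d` prime (`CT {0, d}` is the constant
`2 C₂ ∏_{p ∣ d, p > 2} (p - 1) / (p - 2)`) -/
noncomputable def expectedPairs (N d q : ℕ) : ℝ := CT {0, d} / phi d q * (N / Real.log N ^ 2)

open Pool.Agent.Y822 Pool.Agent.Y822.Par3
open Pool.Agent.H373R2.T7 (Vz)
open Pool.Agent.H528.UG (wM lg pif law2)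
open Pool.Agent.H528.Mn (ac nn)

lemma ro_iff' {ξ : ℝ} {N m : ℕ} (hN : 1 ≤ N) :
    (∀ q : ℕ, q.Prime → q ∣ m → (N : ℝ) ^ ξ ≤ q) ↔ Ro (zN ξ N) m := by
  constructor
  · intro h1 q hq hqz hqd
    have h3 := zN_lt' (ε₁ := ξ) hN (h1 q hq hqd)
    omega
  · intro h1 q hq hqd
    by_contra h2
    push Not at h2
    exact h1 q hq (le_zN h2) hqd

lemma moment_eq (a : ℕ → ℝ) (l : List ℕ) : ∀ P, moment a l P = Pool.Agent.H528.Mo.M a l P := by
  induction l with
  | nil =>
    intro P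
    unfold moment Pool.Agent.H528.Mo.M
    rfl
  | cons k l ih =>
    intro P
    unfold moment Pool.Agent.H528.Mo.M
    exact sum_congr rfl fun p _ => by rw [ih]

lemma moment_nonneg {a : ℕ → ℝ} (ha : ∀ p, 0 ≤ a p) (l : List ℕ) (P : Finset ℕ) : 0 ≤ moment a l P := by
  rw [moment_eq]
  exact Pool.Agent.H528.Mo.M_nonneg ha l P

lemma weight_eq {N : ℕ} {ξ : ℝ} (hN : 1 ≤ N) (l : List ℕ) (m : ℕ) : weight N ξ l m = wM N (zN ξ N) l m := by
  unfold weight wM ro
  rw [ro_iff' hN]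
  by_cases h1 : Squarefree m
  · by_cases h2 : Ro (zN ξ N) m
    · rw [if_pos ⟨h1, h2⟩, if_pos h2, if_pos h1, one_mul, moment_eq]
      rfl
    · rw [if_neg (fun h => h2 h.2), if_neg h2, zero_mul]
  · rw [if_neg (fun h => h1 h.1), if_neg h1, mul_zero]

lemma weight_nonneg {N : ℕ} {ξ : ℝ} (l : List ℕ) (m : ℕ) : 0 ≤ weight N ξ l m := by
  unfold weight
  split_ifs
  · apply moment_nonneg
    intro p
    exact div_nonneg (Real.log_natCast_nonneg p) (Real.log_natCast_nonneg N)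
  · exact le_rfl

/-- the indicator function of `A` -/
noncomputable def ind (A : Finset ℕ) (n : ℕ) : ℝ := if n ∈ A then 1 else 0

lemma ind_bd (A : Finset ℕ) (n : ℕ) : 0 ≤ ind A n ∧ ind A n ≤ 1 := by
  unfold ind; split_ifs <;> norm_num

lemma ind_sum {N : ℕ} {A : Finset ℕ} (hA : ∀ a ∈ A, 1 ≤ a ∧ a ≤ N) (F : ℕ → ℝ) :
    ∑ n ∈ Icc 1 N, ind A n * F n = ∑ n ∈ A, F n := by
  unfold ind
  simp only [ite_mul, one_mul, zero_mul]
  rw [← sum_filter]
  congr 1
  ext n
  rw [mem_filter, mem_Icc]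
  exact ⟨fun h => h.2, fun h => ⟨hA n h, h⟩⟩

lemma mass_eq {N : ℕ} {ξ : ℝ} (hN : 1 ≤ N) (l : List ℕ) {A : Finset ℕ} (hA : ∀ a ∈ A, 1 ≤ a ∧ a ≤ N) (t : ℕ) :
    mass N ξ l A t = ∑ n ∈ Icc 1 N, ind A n * wM N (zN ξ N) l (n + t) := by
  rw [ind_sum hA]
  unfold mass
  exact sum_congr rfl fun n _ => weight_eq hN l _

lemma mass_nonneg {N : ℕ} {ξ : ℝ} (l : List ℕ) (A : Finset ℕ) (t : ℕ) : 0 ≤ mass N ξ l A t :=
  sum_nonneg fun _ _ => weight_nonneg l _

lemma primesIn_eq {N : ℕ} {A : Finset ℕ} (hA : ∀ a ∈ A, 1 ≤ a ∧ a ≤ N) (t : ℕ) :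
    primesIn A t = pif N (ind A) t := by
  classical
  unfold primesIn pif
  rw [ind_sum hA, card_eq_sum_ones, Nat.cast_sum, sum_filter]
  refine sum_congr rfl fun n _ => ?_
  split_ifs <;> simp

lemma eulerProd_eq (y : ℕ) : eulerProd y = Vz y := by
  unfold eulerProd Vz
  rfl

lemma expected_eq {κ : ℝ} {N : ℕ} {A : Finset ℕ} (hA : ∀ a ∈ A, 1 ≤ a ∧ a ≤ N) (t : ℕ) :
    expected κ N A t = (∑ n ∈ Icc 1 N, ind A n * ro (yN κ N) (n + t)) / (Real.log N * Vz (yN κ N)) := by
  classical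
  unfold expected
  rw [eulerProd_eq]
  have h1 : ((A.filter (fun n => ∀ q : ℕ, q.Prime → q ≤ ⌊Real.exp (κ * Real.log N / Real.log (Real.log N))⌋₊ →
      ¬ q ∣ n + t)).card : ℝ) = ∑ n ∈ Icc 1 N, ind A n * ro (yN κ N) (n + t) := by
    rw [ind_sum hA, card_eq_sum_ones, Nat.cast_sum, sum_filter]
    refine sum_congr rfl fun n _ => ?_
    have e1 : (∀ q : ℕ, q.Prime → q ≤ ⌊Real.exp (κ * Real.log N / Real.log (Real.log N))⌋₊ → ¬ q ∣ n + t) ↔
        Ro (yN κ N) (n + t) := Iff.rfl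
    unfold ro
    by_cases h : Ro (yN κ N) (n + t)
    · rw [if_pos (e1.2 h), if_pos h, Nat.cast_one]
    · rw [if_neg (fun h2 => h (e1.1 h2)), if_neg h]
  rw [h1]
  rfl

lemma primesAP_mem (N a q : ℕ) : ∀ p ∈ primesAP N a q, 1 ≤ p ∧ p ≤ N := by
  intro p hp
  unfold primesAP at hp
  rw [mem_filter, mem_Icc] at hp
  exact hp.1

lemma ind_AP {N a q n : ℕ} (hn : n ∈ Icc 1 N) : ind (primesAP N a q) n = Pool.Agent.H528.Ap.fA q a n := by
  unfold ind primesAP Pool.Agent.H528.Ap.fA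
  have e1 : (n ∈ (Icc 1 N).filter (fun p => p.Prime ∧ p ≡ a [MOD q])) ↔ (n.Prime ∧ n ≡ a [MOD q]) := by
    rw [mem_filter]
    exact ⟨fun h => h.2, fun h => ⟨hn, h⟩⟩
  by_cases h : n.Prime ∧ n ≡ a [MOD q]
  · rw [if_pos h, if_pos (e1.2 h)]
  · rw [if_neg h, if_neg (fun h2 => h (e1.1 h2))]

lemma coeff_eq (k : ℕ) (l : List ℕ) : coeff (k :: l) = ac k l := by
  unfold coeff ac nn Pool.Agent.H528.Mo.fct
  rw [List.length_cons, Nat.add_sub_cancel]

lemma phi_eq (d q : ℕ) : phi d q = Pool.Agent.H528.Ap.phiT d q := rfl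

lemma expectedPairs_eq (N d q : ℕ) : expectedPairs N d q = Pool.Agent.H528.Ap.EA N d q := rfl

/-- the list as a pair -/
def toPair (l : List ℕ) : ℕ × List ℕ := (l.headI, l.tail)

lemma toPair_eq {l : List ℕ} (hl : l ≠ []) : (toPair l).1 :: (toPair l).2 = l := by
  cases l with
  | nil => exact absurd rfl hl
  | cons k l => rfl

lemma toPair_par {l : List ℕ} (hl : l ≠ []) : Even (toPair l).2.length ↔ Odd l.length := by
  cases l with
  | nil => exact absurd rfl hl
  | cons k l =>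
    show Even l.length ↔ Odd (k :: l).length
    rw [List.length_cons, Nat.odd_add_one, Nat.not_odd_iff_even]

open Classical in
theorem result :
    -- the conjectured constants are convergent products, positive for even `d`
    (∀ d : ℕ, HasProd (fun p : Nat.Primes => locT {0, d} p) (CT {0, d}) ∧ (Even d → 1 ≤ d → 0 < CT {0, d})) ∧
    -- the parity law for almost all translates of ARBITRARY sets
    (∀ 𝓛 : Finset (List ℕ), (∀ l ∈ 𝓛, l ≠ []) → ∀ ε : ℝ, 0 < ε → ∀ U : ℕ, ∃ δ ξ κ : ℝ, 0 < δ ∧ δ < 1 ∧ 0 < ξ ∧ ξ ≤ ε ∧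
      0 < κ ∧ ∃ N₀ : ℕ, ∀ N : ℕ, N₀ ≤ N → ∀ A : Finset ℕ, (∀ a ∈ A, 1 ≤ a ∧ a ≤ N) →
        (((Icc 1 N).filter (fun t => ¬ ∀ l ∈ 𝓛,
          |mass N ξ l A t - coeff l * (if Odd l.length then primesIn A t else 2 * expected κ N A t - primesIn A t)| ≤
            ε * expected κ N A t + N / Real.log N ^ U)).card : ℝ) ≤ (N : ℝ) ^ δ) ∧
    -- the parity law for prime pairs in arithmetic progressions
    ∀ 𝓛 : Finset (List ℕ), (∀ l ∈ 𝓛, l ≠ []) → ∀ ε : ℝ, 0 < ε → ∀ B : ℕ, ∃ δ ξ : ℝ, 0 < δ ∧ δ < 1 ∧ 0 < ξ ∧ ξ ≤ ε ∧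
      ∃ N₀ : ℕ, ∀ N : ℕ, N₀ ≤ N → ∃ 𝓔 : Finset ℕ, (𝓔.card : ℝ) ≤ (N : ℝ) ^ δ ∧
        ∀ d : ℕ, 1 ≤ d → d ≤ N → Even d → d ∉ 𝓔 →
        ∀ q a : ℕ, 1 ≤ q → (q : ℝ) ≤ Real.log N ^ B → Nat.Coprime a q → Nat.Coprime (a + d) q →
          (∀ l ∈ 𝓛, |mass N ξ l (primesAP N a q) d - coeff l * (if Odd l.length then primesIn (primesAP N a q) d
              else 2 * expectedPairs N d q - primesIn (primesAP N a q) d)| ≤ ε * expectedPairs N d q) ∧
          primesIn (primesAP N a q) d ≤ (2 + ε) * expectedPairs N d q := by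
  have habs : ∀ (δ : ℝ) (B : ℕ), δ < 1 → ∃ N₁ : ℕ, ∀ N : ℕ, N₁ ≤ N →
      (N : ℝ) ^ δ * Real.log N ^ B ≤ (N : ℝ) ^ ((1 + δ) / 2) := by
    intro δ B hδ
    have e2 := ev_logN (ev_pow_exp B ((1 - δ) / 2) 1 (by linarith))
    obtain ⟨N₀, hN₀⟩ := eventually_atTop.1 e2
    refine ⟨max N₀ 1, fun N hN => ?_⟩
    have h2 := hN₀ N ((le_max_left _ _).trans hN)
    have hN1 : 1 ≤ N := (le_max_right _ _).trans hN
    have hN0 : (0 : ℝ) < N := by exact_mod_cast hN1
    rw [one_mul] at h2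
    have e3 : (N : ℝ) ^ ((1 + δ) / 2) = (N : ℝ) ^ δ * Real.exp ((1 - δ) / 2 * Real.log N) := by
      rw [mul_comm ((1 - δ) / 2), ← Real.rpow_def_of_pos hN0, ← Real.rpow_add hN0]
      congr 1
      ring
    rw [e3]
    exact mul_le_mul_of_nonneg_left h2 (by positivity)
  refine ⟨fun d => ⟨CT_hasProd _, fun hd _ => ?_⟩, fun 𝓛 h𝓛 ε hε U => ?_, fun 𝓛 h𝓛 ε hε B => ?_⟩
  · rw [← CT_en]
    apply Pool.Agent.H386R2.HL.singularSeries_pos (en_inj _)
    intro p hp
    rw [nu_en]
    exact Pool.Agent.H528.Ap.adm_pair hd p hp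
  · obtain ⟨δ, hδ1, hδ2, ξ, hξ, hξ8, hξε, κ, hκ, hκ1, C, LAW⟩ := law2 (𝓛.image toPair) ε hε U
    obtain ⟨N₁, hN₁⟩ := habs δ C hδ2
    obtain ⟨N₀, hN₀⟩ := eventually_atTop.1 LAW
    refine ⟨(1 + δ) / 2, ξ, κ, by linarith, by linarith, hξ, hξε, hκ, max (max N₀ N₁) 1, fun N hN A hA => ?_⟩
    have h1 := hN₀ N ((le_max_left _ _).trans ((le_max_left _ _).trans hN))
    have h2 := hN₁ N ((le_max_right _ _).trans ((le_max_left _ _).trans hN))
    have hN1 : 1 ≤ N := (le_max_right _ _).trans hN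
    refine (h1 (ind A) (ind_bd A) _ fun t ht => ?_).trans h2
    rw [mem_filter, mem_Icc] at ht
    refine ⟨ht.1.2, fun hgood => ht.2 fun l hl => ?_⟩
    have h3 := hgood (toPair l) (mem_image_of_mem _ hl)
    rw [toPair_eq (h𝓛 l hl), ← mass_eq hN1 l hA, ← primesIn_eq hA, ← expected_eq hA, ← coeff_eq,
      toPair_eq (h𝓛 l hl)] at h3
    have h4 := toPair_par (h𝓛 l hl)
    by_cases h5 : Odd l.length
    · rw [if_pos (h4.2 h5)] at h3
      rw [if_pos h5]
      exact h3
    · rw [if_neg (fun h => h5 (h4.1 h))] at h3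
      rw [if_neg h5]
      exact h3
  · obtain ⟨δ, hδ1, hδ2, ξ, hξ, hξ8, hξε, C, LAW⟩ := Pool.Agent.H528.Ap.ap_law ((insert [0, 0] 𝓛).image toPair) ε hε B
    obtain ⟨N₁, hN₁⟩ := habs δ C hδ2
    obtain ⟨N₀, hN₀⟩ := eventually_atTop.1 LAW
    refine ⟨(1 + δ) / 2, ξ, by linarith, by linarith, hξ, hξε, max (max N₀ N₁) 1, fun N hN => ?_⟩
    have h1 := hN₀ N ((le_max_left _ _).trans ((le_max_left _ _).trans hN))
    have h2 := hN₁ N ((le_max_right _ _).trans ((le_max_left _ _).trans hN))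
    have hN1 : 1 ≤ N := (le_max_right _ _).trans hN
    refine ⟨(Icc 1 N).filter (fun d => Even d ∧ ∃ q a : ℕ, 1 ≤ q ∧ (q : ℝ) ≤ Real.log N ^ B ∧
      Nat.Coprime a q ∧ Nat.Coprime (a + d) q ∧
      ¬ ∀ l ∈ (insert [0, 0] 𝓛).image toPair, |Pool.Agent.H528.Ap.TA N (zN ξ N) q a d (l.1 :: l.2) -
          ac l.1 l.2 * (if Even l.2.length then pif N (Pool.Agent.H528.Ap.fA q a) d else
            2 * Pool.Agent.H528.Ap.EA N d q - pif N (Pool.Agent.H528.Ap.fA q a) d)| ≤
        ε * Pool.Agent.H528.Ap.EA N d q), (h1 _ fun t ht => ?_).trans h2, ?_⟩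
    · rw [mem_filter, mem_Icc] at ht
      exact ⟨⟨ht.1.1, ht.1.2, ht.2.1⟩, ht.2.2⟩
    · intro d hd1 hdN hev hdE q a hq hqB ha had
      have hall : ∀ l ∈ insert [0, 0] 𝓛, |mass N ξ l (primesAP N a q) d - coeff l *
          (if Odd l.length then primesIn (primesAP N a q) d
            else 2 * expectedPairs N d q - primesIn (primesAP N a q) d)| ≤ ε * expectedPairs N d q := by
        intro l hl
        have hl0 : l ≠ [] := by
          rw [mem_insert] at hl
          rcases hl with rfl | hl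
          · simp
          · exact h𝓛 l hl
        by_contra hcon
        apply hdE
        rw [mem_filter, mem_Icc]
        refine ⟨⟨hd1, hdN⟩, hev, q, a, hq, hqB, ha, had, fun hgood => hcon ?_⟩
        have h3 := hgood (toPair l) (mem_image_of_mem _ hl)
        have e1 : Pool.Agent.H528.Ap.TA N (zN ξ N) q a d l = mass N ξ l (primesAP N a q) d := by
          rw [mass_eq hN1 l (primesAP_mem N a q)]
          unfold Pool.Agent.H528.Ap.TA
          exact sum_congr rfl fun n hn => by rw [ind_AP hn]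
        have e2 : pif N (Pool.Agent.H528.Ap.fA q a) d = primesIn (primesAP N a q) d := by
          rw [primesIn_eq (primesAP_mem N a q)]
          unfold pif
          exact sum_congr rfl fun n hn => by rw [ind_AP hn]
        rw [toPair_eq hl0, e1, e2, ← coeff_eq, toPair_eq hl0, ← expectedPairs_eq] at h3
        have h4 := toPair_par hl0
        by_cases h5 : Odd l.length
        · rw [if_pos (h4.2 h5)] at h3
          rw [if_pos h5]
          exact h3
        · rw [if_neg (fun h => h5 (h4.1 h))] at h3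
          rw [if_neg h5]
          exact h3
      refine ⟨fun l hl => hall l (mem_insert_of_mem hl), ?_⟩
      have h3 := hall [0, 0] (mem_insert_self _ _)
      have h4 : coeff [0, 0] = 1 := by
        unfold coeff
        simp
      rw [h4, one_mul, if_neg (by decide)] at h3
      have h5 := (abs_le.1 h3).2
      have h6 := mass_nonneg (N := N) (ξ := ξ) [0, 0] (primesAP N a q) d
      linarith

end Pool.Agent.Results.MP_92ef0c_nt.ParityLawInProgressions
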