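import Mathlib
import Pool.Agent.H536.OC.C21
import Pool.Agent.H536.OC.SPair

/-!
# `p` prime and `p + d = P₃` in all progressions to power moduli, for all even differences

For every large `X`, EVERY even `d ≤ X`, EVERY modulus `q ≤ X ^ δ` (Siegel zeros are allowed) and EVERY residue class `a`
mod `q` with `(a, q) = (a + d, q) = 1` there are at least `X ^ 0.97` primes `p ≡ a (mod q)`, `X ^ 0.97 ≤ p ≤ X`, for which
`p + d` has at most three prime factors, all of them larger than `X ^ 0.11`.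
-/

namespace Pool.Agent.Results.MP_92ef0c_nt.PrimeAndP3EveryModulus

theorem result : ∃ δ : ℝ, 0 < δ ∧ ∃ X0 : ℕ, ∀ X : ℕ, X0 ≤ X → ∀ d : ℕ, Even d → 2 ≤ d → d ≤ X →
    ∀ q a : ℕ, 1 ≤ q → (q : ℝ) ≤ (X : ℝ) ^ δ → a.Coprime q → (a + d).Coprime q →
    ∃ S : Finset ℕ, (X : ℝ) ^ (97 / 100 : ℝ) ≤ S.card ∧
    ∀ p ∈ S, p.Prime ∧ p ≤ X ∧ p ≡ a [MOD q] ∧ (X : ℝ) ^ (97 / 100 : ℝ) ≤ p ∧
      ArithmeticFunction.cardFactors (p + d) ≤ 3 ∧ ∀ l : ℕ, l.Prime → l ∣ p + d → (X : ℝ) ^ (11 / 100 : ℝ) < l :=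
  Pool.Agent.H536.OC.pairs3 Pool.Agent.H536.OC.U3c

end Pool.Agent.Results.MP_92ef0c_nt.PrimeAndP3EveryModulus
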