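import Pool.Agent.H535.AU.Sys
import Pool.Agent.H535.AK.Dimc

set_option autoImplicit false

/-!
# Arbitrary weights on prime pairs and prime tuples, uniformly in the shifts

Let `d ≠ 0` be even, `|d| ≤ exp ((log X) ^ B)`, and let `u` be an ARBITRARY complex weight on the integers `t` of an
interval `(Y, Y + X]`, in any position, for which `t` and `t + d` are both prime (`± p`, `p > √X`); or `t` and `d - t`
(Goldbach).  For moduli `q ∈ (K, 2K]` with `√X (log X) ^ C ≤ K ≤ X` the mean square of the errors of `u` in the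
residue classes `r` with `(r, q) = (r + d, q) = 1`, with respect to ANY main terms `z q`, is on average over `q` at
least `(1 - ε) (1 - (1 - ρ) ^ 2)` times `∑ |u| ^ 2`, where `ρ = log (K ^ 2 / X) / log X` (`ρ = 2 θ - 1` for `K = X ^ θ`).
The same is true with `1 - (1 - ρ) ^ k` for all admissible systems of `k` linear forms with discriminant at most
`exp ((log X) ^ B)`, and for the integers `t` at which the values of the forms have at most `J` prime factors altogether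
and no prime factor `≤ √X`.  The constants `C` and `X₀` depend on `k`, `B`, `J`, `ε` only.

Proof.  The exponential sum of `u` cannot have more than the proportion `(1 + ε) (1 - ρ) ^ k` of its `L^2` mass near
the fractions with denominators at most `X / K` (files `AK/Ker`, `PropA`, `AU/Lam`, `Main`: the Ramanujan sums are
decomposed into positive definite parts adapted to the sieve of dimension `k`, and the sums of the sieve weights over
the integers coprime to `s` are compared at `z` and at `T z`), and the other points are hit by the fractions with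
denominators `q ∈ (K, 2K]` as often as expected (files `AK/Good`, `Var`).  The uniformity in the system comes from
`∑_{p ∣ D} log p / p ≤ loglog |D| + O(1)` (file `AU/Lin`).
-/

open Finset

namespace Pool.Agent.Results.MP_92ef0c_nt.WeightsOnPrimePairs

/-- the product of the linear forms `a i * t + b i` -/
def forms {k : ℕ} (a b : Fin k → ℤ) (t : ℤ) : ℤ := ∏ i, (a i * t + b i)

/-- the discriminant of the system: the product of all `a i` and all `a i * b j - a j * b i`, `i < j` -/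
def discr {k : ℕ} (a b : Fin k → ℤ) : ℤ :=
  (∏ i, a i) * ∏ q ∈ (univ : Finset (Fin k × Fin k)).filter (fun q => q.1 < q.2), (a q.1 * b q.2 - a q.2 * b q.1)

/-- admissible systems: no coefficient `a i` is zero, no two forms are proportional, and no prime divides all the
values of the product of the forms -/
def Admissible {k : ℕ} (a b : Fin k → ℤ) : Prop :=
  discr a b ≠ 0 ∧ ∀ p : ℕ, p.Prime → ∃ t : ℤ, ¬ (p : ℤ) ∣ forms a b t

/-- `n ≠ 0` has at most `J` prime factors and all of them are larger than `√X` -/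
def Rough (J X : ℕ) (n : ℤ) : Prop :=
  n ≠ 0 ∧ n.natAbs.primeFactors.card ≤ J ∧ ∀ p : ℕ, p.Prime → p ∣ n.natAbs → X < p ^ 2

/-- the sum of the weights `u t` over the integers `Y < t ≤ Y + X` with `t ≡ r (mod q)` -/
noncomputable def inClass (u : ℤ → ℂ) (Y : ℤ) (X q : ℕ) (r : ℤ) : ℂ :=
  ∑ t ∈ (Ioc Y (Y + X)).filter (fun t => t ≡ r [ZMOD q]), u t

/-- the sum over the residue classes `r` modulo `q` with `(F r, q) = 1` of the squares of the errors with respect to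
the main term `z` -/
noncomputable def errors (F : ℤ → ℤ) (u : ℤ → ℂ) (Y : ℤ) (X q : ℕ) (z : ℂ) : ℝ :=
  ∑ r ∈ (range q).filter (fun r : ℕ => Int.gcd (F r) q = 1), ‖inClass u Y X q r - z‖ ^ 2

theorem errors_eq (F : ℤ → ℤ) (u : ℤ → ℂ) (Y : ℤ) (X q : ℕ) (z : ℂ) : errors F u Y X q z =
    ∑ r ∈ Pool.Agent.H535.AK.CoC F q, ‖Pool.Agent.H535.AK.IC u Y X q r - z‖ ^ 2 := by
  unfold errors
  have h1 : (range q).filter (fun r : ℕ => Int.gcd (F r) q = 1) = Pool.Agent.H535.AK.CoC F q := by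
    ext r
    rw [mem_filter, mem_range, Pool.Agent.H535.AK.mem_CoC, Int.isCoprime_iff_gcd_eq_one]
  rw [h1]
  refine sum_congr rfl fun r _ => ?_
  have h2 : inClass u Y X q r = Pool.Agent.H535.AK.IC u Y X q r := by
    unfold inClass Pool.Agent.H535.AK.IC
    refine sum_congr (filter_congr fun t _ => ?_) fun _ _ => rfl
    constructor
    · intro h
      exact Int.modEq_iff_dvd.1 h.symm
    · intro h
      exact (Int.modEq_iff_dvd.2 h).symm
  rw [h2]

theorem systems (k : ℕ) (hk : 1 ≤ k) (B : ℝ) (hB : 0 ≤ B) (J : ℕ) (ε : ℝ) (hε : 0 < ε) (hε1 : ε ≤ 1) :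
    ∃ C : ℝ, ∃ X₀ : ℕ, ∀ X : ℕ, X₀ ≤ X → ∀ K : ℕ, √X * Real.log X ^ C ≤ K → K ≤ X →
      ∀ a b : Fin k → ℤ, Admissible a b → |(discr a b : ℝ)| ≤ Real.exp (Real.log X ^ B) →
      ∀ (Y : ℤ) (u : ℤ → ℂ), (∀ t : ℤ, Y < t → t ≤ Y + X → u t ≠ 0 → Rough J X (forms a b t)) →
      ∀ z : ℕ → ℂ,
      (1 - ε) * (1 - (1 - Real.log ((K : ℝ) ^ 2 / X) / Real.log X) ^ k) * K * ∑ t ∈ Ioc Y (Y + X), ‖u t‖ ^ 2 ≤
        ∑ q ∈ Ioc K (2 * K), errors (forms a b) u Y X q (z q) := by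
  obtain ⟨C, X₀, hmain⟩ := Pool.Agent.H535.AU.sys_var k hk B hB J ε hε hε1
  refine ⟨C, X₀, fun X hX K hK hKX a b hadm hdisc Y u hu z => ?_⟩
  rw [sum_congr rfl fun q _ => errors_eq (forms a b) u Y X q (z q)]
  exact hmain X hX K hK hKX a b hadm hdisc Y u (fun t ht hne => by
    rw [mem_Ioc] at ht
    obtain ⟨h0, hJ, hbig⟩ := hu t ht.1 ht.2 hne
    exact ⟨h0, hJ, fun p hp hd => hbig p hp (Int.natCast_dvd.1 hd)⟩) z

theorem rough_pair (X : ℕ) (m n : ℤ) (hm : m.natAbs.Prime) (hn : n.natAbs.Prime) (hmX : X < m.natAbs ^ 2)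
    (hnX : X < n.natAbs ^ 2) : Rough 2 X (m * n) := by
  have hm0 : m.natAbs ≠ 0 := hm.ne_zero
  have hn0 : n.natAbs ≠ 0 := hn.ne_zero
  refine ⟨mul_ne_zero (Int.natAbs_ne_zero.1 hm0) (Int.natAbs_ne_zero.1 hn0), ?_, fun p hp hd => ?_⟩
  · rw [Int.natAbs_mul, Nat.primeFactors_mul hm0 hn0, hm.primeFactors, hn.primeFactors]
    exact (card_union_le _ _).trans (by simp)
  · rw [Int.natAbs_mul] at hd
    rcases (Nat.Prime.dvd_mul hp).1 hd with h | h
    · rw [(Nat.prime_dvd_prime_iff_eq hp hm).1 h]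
      exact hmX
    · rw [(Nat.prime_dvd_prime_iff_eq hp hn).1 h]
      exact hnX

/-- **Arbitrary weights on prime pairs** (first part: `t` and `t + d`, or `t` and `d - t`, uniformly in `d`) **and on
almost prime values of all admissible systems of `k` linear forms** (second part), uniformly in the system; and
perfectly distributed weights (third part). -/
theorem result :
    (∀ (B ε : ℝ), 0 ≤ B → 0 < ε → ε ≤ 1 → ∃ C : ℝ, ∃ X₀ : ℕ, ∀ X : ℕ, X₀ ≤ X →
      ∀ K : ℕ, √X * Real.log X ^ C ≤ K → K ≤ X →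
      ∀ s d : ℤ, (s = 1 ∨ s = -1) → Even d → d ≠ 0 → |(d : ℝ)| ≤ Real.exp (Real.log X ^ B) →
      ∀ (Y : ℤ) (u : ℤ → ℂ),
      (∀ t : ℤ, Y < t → t ≤ Y + X → u t ≠ 0 → t.natAbs.Prime ∧ X < t.natAbs ^ 2 ∧
        (s * t + d).natAbs.Prime ∧ X < (s * t + d).natAbs ^ 2) → ∀ z : ℕ → ℂ,
      (1 - ε) * (1 - (1 - Real.log ((K : ℝ) ^ 2 / X) / Real.log X) ^ 2) * K * ∑ t ∈ Ioc Y (Y + X), ‖u t‖ ^ 2 ≤
        ∑ q ∈ Ioc K (2 * K), errors (fun r => r * (s * r + d)) u Y X q (z q)) ∧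
    (∀ k : ℕ, 1 ≤ k → ∀ (B : ℝ) (J : ℕ) (ε : ℝ), 0 ≤ B → 0 < ε → ε ≤ 1 → ∃ C : ℝ, ∃ X₀ : ℕ,
      ∀ X : ℕ, X₀ ≤ X → ∀ K : ℕ, √X * Real.log X ^ C ≤ K → K ≤ X →
      ∀ a b : Fin k → ℤ, Admissible a b → |(discr a b : ℝ)| ≤ Real.exp (Real.log X ^ B) →
      ∀ (Y : ℤ) (u : ℤ → ℂ), (∀ t : ℤ, Y < t → t ≤ Y + X → u t ≠ 0 → Rough J X (forms a b t)) →
      ∀ z : ℕ → ℂ,
      (1 - ε) * (1 - (1 - Real.log ((K : ℝ) ^ 2 / X) / Real.log X) ^ k) * K * ∑ t ∈ Ioc Y (Y + X), ‖u t‖ ^ 2 ≤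
        ∑ q ∈ Ioc K (2 * K), errors (forms a b) u Y X q (z q)) ∧
    (∀ (K : ℕ) (S : Finset ℤ), ∑ k ∈ Ioc K (2 * K), k < S.card →
      ∃ u : ℤ → ℂ, (∀ t, u t ≠ 0 → t ∈ S) ∧ (∃ t, u t ≠ 0) ∧
        ∀ k ∈ Ioc K (2 * K), ∀ r : ℤ, ∑ t ∈ S.filter (fun t => t ≡ r [ZMOD k]), u t = 0) := by
  refine ⟨fun B ε hB hε hε1 => ?_, fun k hk B J ε hB hε hε1 => systems k hk B hB J ε hε hε1,
    Pool.Agent.H535.AK.perfect⟩
  obtain ⟨C, X₀, h⟩ := systems 2 (by norm_num) B hB 2 ε hε hε1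
  refine ⟨C, X₀, fun X hX K hK hKX s d hs hd hd0 hdX Y u hu z => ?_⟩
  obtain ⟨h1, h2, h3⟩ := Pool.Agent.H535.AU.pair_adm s hs d hd0 hd
  have h3' : forms ![1, s] ![0, d] = fun r => r * (s * r + d) := funext h3
  have h4 := h X hX K hK hKX ![1, s] ![0, d] h1 (le_trans (le_of_eq h2) hdX) Y u (fun t ht1 ht2 hne => by
    obtain ⟨p1, p2, p3, p4⟩ := hu t ht1 ht2 hne
    rw [h3']
    exact rough_pair X t (s * t + d) p1 p3 p2 p4) z
  rw [h3'] at h4
  exact h4

end Pool.Agent.Results.MP_92ef0c_nt.WeightsOnPrimePairs
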